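import Mathlib

set_option autoImplicit false

open Set Filter Topology Metric

namespace Pool.Agent.H.MP_680d10

variable {Z : Type*} [MetricSpace Z]

lemma osc {K : Type*} [MetricSpace K] [CompactSpace K] {F : K → ℝ → Z}
    (h1 : ∀ y, Continuous (F · y)) (h2 : ∀ s, Continuous (F s)) {ε u v : ℝ} (e : 0 < ε)
    (h : u < v) : ∃ a b, u ≤ a ∧ a < b ∧ b ≤ v ∧ ∀ s, ∀ y ∈ Icc a b, dist (F s y) (F s a) ≤ ε := by
  obtain ⟨a, a1, a2⟩ := (dense_iUnion_interior_of_closed (f := fun k : ℕ => {y | ∀ s t : K,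
    dist s t < 1 / (k + 1) → dist (F s y) (F t y) ≤ ε / 3}) (fun k => by
      simp only [ofPred_forall]
      exact isClosed_iInter fun s => isClosed_iInter fun t => isClosed_iInter fun _ =>
        isClosed_le ((h2 s).dist (h2 t)) continuous_const) (eq_univ_of_forall fun y => by
      obtain ⟨δ, d1, d2⟩ := Metric.uniformContinuous_iff.1
        (CompactSpace.uniformContinuous_of_continuous (h1 y)) (ε / 3) (by positivity)
      obtain ⟨k, hk⟩ := exists_nat_one_div_lt d1
      exact mem_iUnion.2 ⟨k, fun s t a => (d2 (a.trans hk)).le⟩)).inter_open_nonempty _ isOpen_Ioo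
        (nonempty_Ioo.2 h)
  obtain ⟨k, hk⟩ := mem_iUnion.1 a2
  obtain ⟨T, -, t1, t2⟩ := finite_cover_balls_of_compact (isCompact_univ (X := K))
    (Nat.one_div_pos_of_nat (n := k))
  have : ∀ᶠ y in 𝓝 a, y < v ∧ ∀ s, dist (F s y) (F s a) ≤ ε := by
    filter_upwards [mem_interior_iff_mem_nhds.1 hk, Iio_mem_nhds a1.2, (eventually_all_finite t1).2
      fun t _ => Metric.tendsto_nhds.1 ((h2 t).tendsto a) (ε / 3) (by positivity)] with y b c d
    refine ⟨c, fun s => ?_⟩
    obtain ⟨t, t3, t4⟩ := mem_iUnion₂.1 (t2 (mem_univ s))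
    linarith [dist_triangle4 (F s y) (F t y) (F t a) (F s a), b s t t4, d t t3,
      interior_subset hk t s (mem_ball'.1 t4)]
  obtain ⟨b, b1, b2⟩ := mem_nhdsGE_iff_exists_Icc_subset.1 (nhdsWithin_le_nhds this)
  exact ⟨a, b, a1.1.le, b1, (b2 ⟨b1.le, le_rfl⟩).1.le, fun s y hy => (b2 hy).2 s⟩

lemma stair {G : ℝ → ℝ → Z} (h1 : ∀ y, Continuous (G · y)) (h2 : ∀ s, Continuous (G s))
    {ε η : ℝ} (e : 0 < η) (e' : 0 ≤ ε) (h : ∀ u v, u < v → ∃ a b, u ≤ a ∧ a < b ∧ b ≤ v ∧
      ∀ s, ∀ y ∈ Icc a b, dist (G s y) (G s a) ≤ ε) (k : ℕ) :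
    ∃ g : ℝ → Z, Continuous g ∧ (∀ x, 0 ≤ x → x ≤ k * η → ∃ s ∈ Icc (x - 4 * η) (x - 2 * η),
      dist (g x) (G s x) ≤ 2 * ε) ∧ ∀ x, k * η ≤ x → g x = G (k * η - 3 * η) x := by
  induction k with
  | zero => exact ⟨_, h2 _, fun x a b => ⟨(0 : ℕ) * η - 3 * η, ⟨by grind, by grind⟩, by
      rw [dist_self]; positivity⟩, fun _ _ => rfl⟩
  | succ k ih =>
    obtain ⟨g, g1, g2, g3⟩ := ih
    obtain ⟨a, b, a1, a2, a3, ab⟩ := h (k * η) (k * η + η) (by linarith)
    have p : 0 < b - a := sub_pos.2 a2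
    push_cast
    refine ⟨fun x => if x ≤ a then g x else if x ≤ (a + b) / 2 then
      G (k * η - 3 * η + η * (2 * (x - a) / (b - a))) a else G ((k + 1) * η - 3 * η)
        (min x (2 * x - b)), g1.if_le (((h1 a).comp (by fun_prop)).if_le ((h2 _).comp (by fun_prop))
          continuous_id continuous_const ?_) continuous_id continuous_const ?_,
            fun x x1 x2 => ?_, fun x hx => ?_⟩
    · rintro _ rfl
      exact congrArg₂ G (by field_simp; ring) (by rw [min_eq_right (by linarith)]; ring)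
    · rintro _ rfl
      rw [if_pos (by linarith), g3 _ a1]; simp
    · dsimp only
      split_ifs with c d
      · rcases le_total x (k * η) with c' | c'
        · exact g2 x x1 c'
        · exact ⟨k * η - 3 * η, ⟨by linarith, by linarith⟩, by rw [g3 x c', dist_self]; positivity⟩
      · have q1 : 0 ≤ 2 * (x - a) / (b - a) := div_nonneg (by linarith) p.le
        have q2 : 2 * (x - a) / (b - a) ≤ 1 := (div_le_one p).2 (by linarith)
        exact ⟨k * η - 3 * η + η * (2 * (x - a) / (b - a)), ⟨by nlinarith, by nlinarith⟩, by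
          rw [dist_comm]; exact (ab _ x ⟨by linarith, by linarith⟩).trans (by linarith)⟩
      · refine ⟨(k + 1) * η - 3 * η, ⟨by linarith, by linarith⟩, ?_⟩
        rcases le_total x b with c' | c'
        · rw [min_eq_right (by linarith)]
          exact (dist_triangle_right _ _ _).trans ((add_le_add (ab _ _ ⟨by linarith, by linarith⟩)
            (ab _ _ ⟨by linarith, c'⟩)).trans (by linarith))
        · rw [min_eq_left (by linarith), dist_self]; positivity
    · dsimp only
      rw [if_neg (by linarith), if_neg (by linarith), min_eq_left (by linarith)]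

open unitInterval in
theorem main {f : I → I → Z} (h1 : ∀ y, Continuous (f · y)) (h2 : ∀ x, Continuous (f x))
    (h3 : ∀ y, ∃ δ > (0 : ℝ), ∀ (n : ℕ) (a : ℕ → I), StrictMono a → (a n - a 0 : ℝ) < δ →
      ∑ k ∈ Finset.range n, dist (f (a (k + 1)) y) (f (a k) y) < 1) :
    ∃ g : ℕ → I → Z, (∀ n, Continuous (g n)) ∧ ∀ x, Tendsto (g · x) atTop (𝓝 (f x x)) ∧
      Summable fun n => dist (g (n + 1) x) (g n x) := by
  let π := projIcc (0 : ℝ) 1 zero_le_one
  have c : Continuous π := continuous_projIcc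
  choose g g1 g2 _ using fun n : ℕ => stair (G := fun s y => f (π s) (π y))
    (ε := (1 / 4) ^ n) (η := (1 / 4) ^ n) (fun y => (h1 _).comp c) (fun s => (h2 _).comp c)
    (by positivity) (by positivity) (fun u v h => by
      obtain ⟨a, b, a1, a2, a3, ab⟩ := osc (F := fun s y => f s (π y)) (fun y => h1 _)
        (fun s => (h2 _).comp c) (show (0 : ℝ) < (1 / 4) ^ n by positivity) h
      exact ⟨a, b, a1, a2, a3, fun s => ab _⟩) (4 ^ n)
  refine ⟨fun n x => g n x, fun n => (g1 n).comp continuous_subtype_val, fun x => ?_⟩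
  choose s s1 s2 using fun n => g2 n x x.2.1 (x.2.2.trans (by simp))
  simp only [π, projIcc_val] at s2
  have z : Tendsto (fun n : ℕ => (1 / 4 : ℝ) ^ n) atTop (𝓝 0) :=
    tendsto_pow_atTop_nhds_zero_of_lt_one (by norm_num) (by norm_num)
  have y : Summable fun n : ℕ => 2 * (1 / 4 : ℝ) ^ n :=
    (summable_geometric_of_lt_one (by norm_num) (by norm_num)).mul_left _
  have l : Tendsto s atTop (𝓝 x) := tendsto_of_tendsto_of_tendsto_of_le_of_le
    (by simpa using (z.const_mul 4).const_sub x.1) (by simpa using (z.const_mul 2).const_sub x.1)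
    (fun n => (s1 n).1) fun n => (s1 n).2
  have p : ∀ n : ℕ, (0 : ℝ) < (1 / 4) ^ n := fun n => by positivity
  have m : StrictMono s := strictMono_nat_of_lt_succ fun n => by
    linarith [(s1 n).2, (s1 (n + 1)).1, pow_succ (1 / 4 : ℝ) n, p n]
  refine ⟨(((h1 x).comp c).tendsto' x _ (by simp [π]) |>.comp l).congr_dist
    (squeeze_zero (fun _ => dist_nonneg) (fun n => (dist_comm _ _).trans_le (s2 n)) y.tendsto_atTop_zero),
    .of_nonneg_of_le (fun _ => dist_nonneg) (fun n => (dist_triangle4 _ (f (π (s (n + 1))) x)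
      (f (π (s n)) x) _).trans (add_le_add (add_le_add (s2 _) le_rfl) ((dist_comm _ _).trans_le
        (s2 n)))) ((((summable_nat_add_iff 1).2 y).add ?_).add y)⟩
  rcases x.2.1.eq_or_lt with e | e
  · have : ∀ n, π (s n) = 0 := fun n => projIcc_of_le_left _ (by linarith [(s1 n).2, p n])
    simp [this]
  · obtain ⟨δ, d1, d2⟩ := h3 x
    obtain ⟨N, n1, n2⟩ := ((l.eventually (Ioi_mem_nhds e)).and
      (l.eventually (Ioi_mem_nhds (sub_lt_self x.1 d1)))).exists
    have q : ∀ n, s (n + N) ∈ Icc (0 : ℝ) 1 := fun n => ⟨n1.le.trans (m.monotone le_add_self),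
      by linarith [(s1 (n + N)).2, p (n + N), x.2.2]⟩
    refine (summable_nat_add_iff N).1 (summable_of_sum_range_le (c := 1) (fun _ => dist_nonneg)
      fun n => .trans (le_of_eq (Finset.sum_congr rfl fun k _ => ?_)) (d2 n (fun k => ⟨_, q k⟩)
        (fun i j h => m (Nat.add_lt_add_right h N)) ?_).le)
    · rw [← projIcc_of_mem zero_le_one, ← projIcc_of_mem zero_le_one, Nat.add_right_comm]
    · simp only [zero_add]
      linarith [(s1 (n + N)).2, p (n + N)]

end Pool.Agent.H.MP_680d10
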